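import Pool.Agent.GT.StmtsE

set_option autoImplicit false

namespace Pool.Agent.GT.OF.H74

open Pool.Agent.GT.D

theorem sq_of_rat {n : ℤ} {z : ℚ} (h : (n : ℚ) = z ^ 2) : IsSquare n := by
  rw [← Rat.isSquare_intCast_iff]
  exact ⟨z, by rw [h]; ring⟩

/-- a rational point in integers -/
theorem tri_of {e : Fin 3 → ℤ} {X Y : ℚ} (hY : Y ≠ 0)
    (h : Y ^ 2 = (X - e 0) * (X - e 1) * (X - e 2)) :
    ∃ x w : ℤ, Tri e x w ∧ X = (x : ℚ) / (w : ℚ) ^ 2 := by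
  set a : ℤ := X.num with ha
  set b : ℕ := X.den with hb
  have hb0 : b ≠ 0 := X.den_nz
  have hbq : (b : ℚ) ≠ 0 := by exact_mod_cast hb0
  have hX : X = (a : ℚ) / (b : ℚ) := (Rat.num_div_den X).symm
  have hcop : IsCoprime a (b : ℤ) := by
    rw [Int.isCoprime_iff_gcd_eq_one]
    exact X.reduced
  set N : ℤ := (a - e 0 * b) * (a - e 1 * b) * (a - e 2 * b) with hN
  have hci : ∀ i, IsCoprime (a - e i * b) (b : ℤ) := by
    intro i
    have h1 : a - e i * (b : ℤ) = a + (-(e i)) * b := by ring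
    rw [h1]
    exact IsCoprime.add_mul_right_left hcop _
  have hNc : IsCoprime N ((b : ℤ) ^ 3) :=
    IsCoprime.pow_right (((hci 0).mul_left (hci 1)).mul_left (hci 2))
  have hY2 : Y ^ 2 = (N : ℚ) / ((b ^ 3 : ℤ) : ℚ) := by
    rw [h, hX, hN]
    push_cast
    field_simp
  have hbpos : (0 : ℤ) < (b : ℤ) ^ 3 := by positivity
  have hNc' : Nat.Coprime N.natAbs ((b : ℤ) ^ 3).natAbs := by
    have h2 := Int.isCoprime_iff_gcd_eq_one.1 hNc
    exact h2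
  have hden : ((Y ^ 2).den : ℤ) = (b : ℤ) ^ 3 := by
    rw [hY2]
    exact Rat.den_div_eq_of_coprime hbpos hNc'
  have hnum : (Y ^ 2).num = N := by
    rw [hY2]
    exact Rat.num_div_eq_of_coprime hbpos hNc'
  rw [Rat.den_pow] at hden
  rw [Rat.num_pow] at hnum
  have hden' : Y.den ^ 2 = b ^ 3 := by exact_mod_cast hden
  have hdvd : b ∣ Y.den := by
    rw [← Nat.pow_dvd_pow_iff (two_ne_zero), hden']
    exact ⟨b, by ring⟩
  obtain ⟨c, hc⟩ := hdvd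
  have hbc : b = c ^ 2 := by
    rw [hc] at hden'
    have h3 : b ^ 2 * c ^ 2 = b ^ 2 * b := by
      calc b ^ 2 * c ^ 2 = (b * c) ^ 2 := by ring
        _ = b ^ 3 := hden'
        _ = b ^ 2 * b := by ring
    exact (Nat.eq_of_mul_eq_mul_left (by positivity) h3).symm
  have hc0 : c ≠ 0 := by
    rintro rfl
    exact hb0 (by rw [hbc]; norm_num)
  have hbz : (b : ℤ) = (c : ℤ) ^ 2 := by exact_mod_cast hbc
  have hxc : ∀ i, Xc e a c i = a - e i * b := by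
    intro i
    unfold Xc
    rw [hbz]
  have hprod : Xc e a c 0 * Xc e a c 1 * Xc e a c 2 = Y.num ^ 2 := by
    rw [hxc, hxc, hxc, hnum]
  have hne : Xc e a c 0 * Xc e a c 1 * Xc e a c 2 ≠ 0 := by
    rw [hprod]
    exact pow_ne_zero 2 (Rat.num_ne_zero.2 hY)
  refine ⟨a, c, ⟨by exact_mod_cast hc0, ?_, ?_, ?_⟩, ?_⟩
  · have h4 : IsCoprime a ((c : ℤ) ^ 2) := by rw [← hbz]; exact hcop
    exact (IsCoprime.pow_right_iff (by norm_num)).1 h4
  · have h0 := left_ne_zero_of_mul (left_ne_zero_of_mul hne)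
    have h1 := right_ne_zero_of_mul (left_ne_zero_of_mul hne)
    have h2 := right_ne_zero_of_mul hne
    intro i
    fin_cases i
    · exact h0
    · exact h1
    · exact h2
  · rw [hprod]
    exact ⟨Y.num, by ring⟩
  · rw [hX]
    have h5 : (b : ℚ) = ((c : ℤ) : ℚ) ^ 2 := by exact_mod_cast hbc
    rw [h5]

/-- the translate -/
theorem trans_pt {a b c X Y : ℚ} (hab : a ≠ b) (hac : a ≠ c) (hY : Y ≠ 0)
    (h : Y ^ 2 = (X - a) * (X - b) * (X - c)) : ∃ X' Y' : ℚ, Y' ≠ 0 ∧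
      Y' ^ 2 = (X' - a) * (X' - b) * (X' - c) ∧
      (∃ z : ℚ, (X - b) * (X' - b) * (a - b) = z ^ 2) ∧
      ∃ z : ℚ, (X - c) * (X' - c) * (a - c) = z ^ 2 := by
  have hXa : X - a ≠ 0 := by
    intro h1
    rw [h1] at h
    exact hY (pow_eq_zero_iff two_ne_zero |>.1 (by rw [h]; ring))
  have q1 : a - b ≠ 0 := sub_ne_zero.2 hab
  have q2 : a - c ≠ 0 := sub_ne_zero.2 hac
  refine ⟨a + (a - b) * (a - c) / (X - a), (a - b) * (a - c) * Y / (X - a) ^ 2, ?_, ?_, ?_, ?_⟩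
  · exact div_ne_zero (mul_ne_zero (mul_ne_zero q1 q2) hY) (pow_ne_zero 2 hXa)
  · rw [div_pow, mul_pow, h]
    field_simp
    ring
  · refine ⟨(a - b) * Y / (X - a), ?_⟩
    rw [div_pow, mul_pow, h]
    field_simp
    ring
  · refine ⟨(a - c) * Y / (X - a), ?_⟩
    rw [div_pow, mul_pow, h]
    field_simp
    ring

theorem trl_aux {e : Fin 3 → ℤ} {x w : ℤ} (hT : Tri e x w) (j k m : Fin 3)
    (hjk : e j ≠ e k) (hjm : e j ≠ e m)
    (hperm : ∀ X : ℚ, (X - e 0) * (X - e 1) * (X - e 2) = (X - e j) * (X - e k) * (X - e m)) :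
    ∃ x' w' : ℤ, Tri e x' w' ∧ IsSquare (Xc e x w k * Xc e x' w' k * (e j - e k)) ∧
      IsSquare (Xc e x w m * Xc e x' w' m * (e j - e m)) := by
  obtain ⟨t, ht⟩ := hT.sq
  have hw : (w : ℚ) ≠ 0 := by exact_mod_cast hT.s0
  have ht0 : (t : ℚ) ≠ 0 := by
    have : t ≠ 0 := by
      rintro rfl
      have h1 := mul_ne_zero (mul_ne_zero (hT.ne 0) (hT.ne 1)) (hT.ne 2)
      exact h1 (by rw [ht]; ring)
    exact_mod_cast this
  have hX : ∀ i, ((Xc e x w i : ℤ) : ℚ) = ((x : ℚ) / (w : ℚ) ^ 2 - e i) * (w : ℚ) ^ 2 := by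
    intro i
    unfold Xc
    push_cast
    field_simp
  have hY : ((t : ℚ) / (w : ℚ) ^ 3) ^ 2 = ((x : ℚ) / (w : ℚ) ^ 2 - e j) *
      ((x : ℚ) / (w : ℚ) ^ 2 - e k) * ((x : ℚ) / (w : ℚ) ^ 2 - e m) := by
    rw [← hperm]
    have h2 : ((t : ℚ)) ^ 2 = ((x : ℚ) / (w : ℚ) ^ 2 - e 0) * (w : ℚ) ^ 2 *
        (((x : ℚ) / (w : ℚ) ^ 2 - e 1) * (w : ℚ) ^ 2) *
        (((x : ℚ) / (w : ℚ) ^ 2 - e 2) * (w : ℚ) ^ 2) := by
      rw [← hX, ← hX, ← hX]
      have h3 : Xc e x w 0 * Xc e x w 1 * Xc e x w 2 = t ^ 2 := by rw [ht]; ring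
      exact_mod_cast h3.symm
    rw [div_pow, h2, div_eq_iff (pow_ne_zero 2 (pow_ne_zero 3 hw))]
    ring
  obtain ⟨X', Y', hY', hE, ⟨z1, hz1⟩, ⟨z2, hz2⟩⟩ := trans_pt (a := e j) (b := e k) (c := e m)
    (by exact_mod_cast hjk) (by exact_mod_cast hjm) (div_ne_zero ht0 (pow_ne_zero 3 hw)) hY
  rw [← hperm] at hE
  obtain ⟨x', w', hT', hX'⟩ := tri_of hY' hE
  have hw' : (w' : ℚ) ≠ 0 := by exact_mod_cast hT'.s0
  have hXc' : ∀ i, ((Xc e x' w' i : ℤ) : ℚ) = (X' - e i) * (w' : ℚ) ^ 2 := by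
    intro i
    unfold Xc
    rw [hX']
    push_cast
    field_simp
  refine ⟨x', w', hT', sq_of_rat (z := w * w' * z1) ?_, sq_of_rat (z := w * w' * z2) ?_⟩
  · push_cast
    rw [hX, hXc', mul_pow, ← hz1]
    ring
  · push_cast
    rw [hX, hXc', mul_pow, ← hz2]
    ring

theorem e_trl : TrlStmt := by
  intro e x w hne hT j
  fin_cases j
  · obtain ⟨x', w', h1, h2, h3⟩ := trl_aux hT 0 1 2 (hne 0 1 (by decide)) (hne 0 2 (by decide))
      (fun X => rfl)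
    refine ⟨x', w', h1, ?_⟩
    intro k hk
    fin_cases k
    · exact absurd rfl hk
    · exact h2
    · exact h3
  · obtain ⟨x', w', h1, h2, h3⟩ := trl_aux hT 1 0 2 (hne 1 0 (by decide)) (hne 1 2 (by decide))
      (fun X => by ring)
    refine ⟨x', w', h1, ?_⟩
    intro k hk
    fin_cases k
    · exact h2
    · exact absurd rfl hk
    · exact h3
  · obtain ⟨x', w', h1, h2, h3⟩ := trl_aux hT 2 0 1 (hne 2 0 (by decide)) (hne 2 1 (by decide))
      (fun X => by ring)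
    refine ⟨x', w', h1, ?_⟩
    intro k hk
    fin_cases k
    · exact h2
    · exact h3
    · exact absurd rfl hk

end Pool.Agent.GT.OF.H74
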